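import Mathlib

set_option autoImplicit false

open MeasureTheory Filter Topology Set
open scoped RealInnerProductSpace

namespace Pool.Agent.H329R3.SF

/-- The plane. -/
abbrev E := EuclideanSpace ℝ (Fin 2)

/-- Trace condition: `G` is the gradient of `u` on `Ω` and `u = c` on the boundary. -/
def Trace (Ω : Set E) (c : ℝ) (u : E → ℝ) (G : E → E) : Prop :=
  ∀ φ : E → ℝ, ContDiff ℝ 1 φ → HasCompactSupport φ → ∀ v : E,
    ∫ x in Ω, (u x - c) * (fderiv ℝ φ x v) = - ∫ x in Ω, @inner ℝ E _ (G x) v * φ x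

/-- Weak form of `-Δu = lam u` in `Ω`, `∂u/∂n = 0` on the boundary. -/
def Neumann (Ω : Set E) (lam : ℝ) (u : E → ℝ) (G : E → E) : Prop :=
  ∀ φ : E → ℝ, ContDiff ℝ 1 φ → HasCompactSupport φ →
    ∫ x in Ω, fderiv ℝ φ x (G x) = lam * ∫ x in Ω, u x * φ x

/-- `u` (with weak gradient `G`) is a nontrivial solution on `Ω` of the overdetermined problem
`-Δu = lam u`, `∂u/∂n = 0` and `u = c` on the boundary, in the weak (trace) sense. -/
def Sol (Ω : Set E) (lam c : ℝ) (u : E → ℝ) (G : E → E) : Prop :=
  MemLp u 2 (volume.restrict Ω) ∧ MemLp G 2 (volume.restrict Ω) ∧ Trace Ω c u G ∧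
    Neumann Ω lam u G ∧ ¬ (u =ᵐ[volume.restrict Ω] 0)

/-- The overdetermined problem has a nontrivial solution on `Ω` with eigenvalue `lam > 0`. -/
def Solvable (Ω : Set E) (lam : ℝ) : Prop :=
  0 < lam ∧ ∃ (c : ℝ) (u : E → ℝ) (G : E → E), Sol Ω lam c u G

/-- The quadratic form `v ↦ |A⁻ᵀ v|² / lam`. -/
noncomputable def form (A : E ≃L[ℝ] E) (lam : ℝ) : E → ℝ :=
  fun v => ‖ContinuousLinearMap.adjoint (A.symm : E →L[ℝ] E) v‖ ^ 2 / lam

/-- `A = r O A'` with `r > 0` and `O` orthogonal. -/
def SimTo (A A' : E ≃L[ℝ] E) : Prop :=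
  ∃ (r : ℝ) (O : E ≃ₗᵢ[ℝ] E), 0 < r ∧ ∀ x, A x = r • O (A' x)

/-- The dilation `(x, y) ↦ (s x, y)`. -/
noncomputable def dil (s : ℝ) (x : E) : E := !₂[s * x 0, x 1]

theorem zeros_countable (h : ℂ → ℂ) (hd : Differentiable ℂ h) (h0 : h 0 ≠ 0) :
    {z | h z = 0}.Countable := by
  have han : AnalyticOnNhd ℂ h Set.univ := hd.differentiableOn.analyticOnNhd isOpen_univ
  have key : ∀ z0, ∀ᶠ z in 𝓝[≠] z0, h z ≠ 0 := by
    intro z0
    rcases (han z0 trivial).eventually_eq_zero_or_eventually_ne_zero with h1 | h1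
    · exfalso; apply h0
      exact (han.eqOn_zero_of_preconnected_of_eventuallyEq_zero isPreconnected_univ
        (Set.mem_univ z0) h1) (Set.mem_univ 0)
    · exact h1
  have hdisc : DiscreteTopology {z | h z = 0} := by
    rw [discreteTopology_subtype_iff]
    intro x _
    rw [inf_principal_eq_bot]
    filter_upwards [key x] with z hz
    exact hz
  exact (HereditarilyLindelofSpace.isLindelof _).countable hdisc

/-- the cosine transform of a bounded set along a direction has countably many zeros -/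
theorem cos_zeros {Ω : Set E} (hb : Bornology.IsBounded Ω) (hm : MeasurableSet Ω)
    (hpos : 0 < volume Ω) (v : E) :
    {t : ℝ | ∫ x in Ω, Real.cos (t * @inner ℝ E _ v x) = 0}.Countable := by
  obtain ⟨R, hR⟩ := hb.subset_closedBall (0 : E)
  have hfin : volume Ω < ⊤ := lt_of_le_of_lt (measure_mono hR) measure_closedBall_lt_top
  have : IsFiniteMeasure (volume.restrict Ω) := ⟨by simpa using hfin⟩
  set μ : Measure E := volume.restrict Ω with hμ
  set X : E → ℝ := fun x => @inner ℝ E _ v x with hX
  have hXc : Continuous X := continuous_const.inner continuous_id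
  have hXb : ∀ᵐ x ∂μ, |X x| ≤ ‖v‖ * R := by
    filter_upwards [ae_restrict_mem hm] with x hx
    have h1 : ‖x‖ ≤ R := by simpa using hR hx
    calc |X x| ≤ ‖v‖ * ‖x‖ := abs_real_inner_le_norm v x
      _ ≤ ‖v‖ * R := mul_le_mul_of_nonneg_left h1 (norm_nonneg _)
  have hint : ∀ t : ℝ, Integrable (fun x => Real.exp (t * X x)) μ := by
    intro t
    refine Integrable.of_bound (C := Real.exp (|t| * (‖v‖ * R)))
      (by fun_prop) ?_
    filter_upwards [hXb] with x hx
    rw [Real.norm_eq_abs, Real.abs_exp]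
    apply Real.exp_le_exp.2
    calc t * X x ≤ |t * X x| := le_abs_self _
      _ = |t| * |X x| := abs_mul _ _
      _ ≤ |t| * (‖v‖ * R) := mul_le_mul_of_nonneg_left hx (abs_nonneg _)
  have hset : ProbabilityTheory.integrableExpSet X μ = Set.univ := by
    ext t
    simp only [ProbabilityTheory.integrableExpSet, Set.mem_setOf_eq, Set.mem_univ, iff_true]
    exact hint t
  have hdiff : Differentiable ℂ (ProbabilityTheory.complexMGF X μ) := by
    have h1 := ProbabilityTheory.differentiableOn_complexMGF (X := X) (μ := μ)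
    rw [hset] at h1
    rw [← differentiableOn_univ]
    simpa using h1
  set h : ℂ → ℂ := fun z => (ProbabilityTheory.complexMGF X μ (z * Complex.I) +
    ProbabilityTheory.complexMGF X μ (-z * Complex.I)) / 2 with hh
  have hdh : Differentiable ℂ h := by
    intro z
    exact (((hdiff _).comp z (by fun_prop)).add ((hdiff _).comp z (by fun_prop))).div_const 2
  have hval : ∀ t : ℝ, h t = ((∫ x, Real.cos (t * X x) ∂μ : ℝ) : ℂ) := by
    intro t
    have hi : ∀ s : ℂ, Integrable (fun x => Complex.exp (s * X x)) μ := by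
      intro s
      refine (hint s.re).mono' (by fun_prop) ?_
      filter_upwards with x
      rw [Complex.norm_exp]
      simp
    simp only [hh, ProbabilityTheory.complexMGF]
    rw [← integral_add (hi _) (hi _), ← integral_div, ← integral_complex_ofReal]
    congr 1
    ext x
    rw [Complex.ofReal_cos, Complex.cos]
    push_cast
    congr 2 <;> congr 1 <;> ring_nf
  have h00 : h 0 ≠ 0 := by
    have h1 := hval 0
    simp only [Complex.ofReal_zero, zero_mul, Real.cos_zero] at h1
    rw [h1]
    simp only [integral_const, smul_eq_mul, mul_one]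
    rw [Ne, Complex.ofReal_eq_zero, Measure.real, ENNReal.toReal_eq_zero_iff]
    push Not
    constructor
    · simpa [hμ] using hpos.ne'
    · exact measure_ne_top _ _
  have hc := zeros_countable h hdh h00
  refine (hc.preimage_of_injOn (f := fun t : ℝ => (t : ℂ))
    (Complex.ofReal_injective.injOn)).mono ?_
  intro t ht
  simp only [Set.mem_preimage, Set.mem_setOf_eq] at ht ⊢
  rw [hval t, ht, Complex.ofReal_zero]

end Pool.Agent.H329R3.SF
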