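import Pool.Agent.H329R3.SF.A

set_option autoImplicit false

open MeasureTheory Filter Topology Set
open scoped RealInnerProductSpace

namespace Pool.Agent.H329R3.SF

theorem ident {Ω : Set E} (hb : Bornology.IsBounded Ω) (hm : MeasurableSet Ω)
    {lam c : ℝ} {u : E → ℝ} {G : E → E} (hS : Sol Ω lam c u G) (ξ : E) (a : ℝ) :
    ‖ξ‖ ^ 2 * ∫ x in Ω, (u x - c) * Real.cos (@inner ℝ E _ ξ x + a) =
      lam * ∫ x in Ω, u x * Real.cos (@inner ℝ E _ ξ x + a) := by
  obtain ⟨R, hR0, hR⟩ : ∃ R : ℝ, 0 < R ∧ Ω ⊆ Metric.ball (0 : E) R := by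
    obtain ⟨R, hR⟩ := hb.subset_ball (0 : E)
    exact ⟨max R 1, lt_max_of_lt_right one_pos,
      hR.trans (Metric.ball_subset_ball (le_max_left _ _))⟩
  let f : ContDiffBump (0 : E) := ⟨R, R + 1, hR0, by linarith⟩
  have hf1 : ∀ x ∈ Ω, (fun y => f y) =ᶠ[𝓝 x] fun _ => (1 : ℝ) := by
    intro x hx
    filter_upwards [Metric.isOpen_ball.mem_nhds (hR hx)] with y hy
    exact f.one_of_mem_closedBall (Metric.ball_subset_closedBall hy)
  have hlin : ∀ x, HasFDerivAt (fun y : E => @inner ℝ E _ ξ y + a) (innerSL ℝ ξ) x := by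
    intro x
    exact ((innerSL ℝ ξ).hasFDerivAt).add_const a
  have hsin : ContDiff ℝ 1 (fun y : E => f y * Real.sin (@inner ℝ E _ ξ y + a)) :=
    f.contDiff.mul (Real.contDiff_sin.comp ((contDiff_const.inner ℝ contDiff_id).add contDiff_const))
  have hcos : ContDiff ℝ 1 (fun y : E => f y * Real.cos (@inner ℝ E _ ξ y + a)) :=
    f.contDiff.mul (Real.contDiff_cos.comp ((contDiff_const.inner ℝ contDiff_id).add contDiff_const))
  have hcs : HasCompactSupport (fun y : E => f y * Real.sin (@inner ℝ E _ ξ y + a)) :=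
    f.hasCompactSupport.mul_right
  have hcc : HasCompactSupport (fun y : E => f y * Real.cos (@inner ℝ E _ ξ y + a)) :=
    f.hasCompactSupport.mul_right
  have hds : ∀ x ∈ Ω, ∀ v, fderiv ℝ (fun y : E => f y * Real.sin (@inner ℝ E _ ξ y + a)) x v =
      Real.cos (@inner ℝ E _ ξ x + a) * @inner ℝ E _ ξ v := by
    intro x hx v
    have h1 : (fun y : E => f y * Real.sin (@inner ℝ E _ ξ y + a)) =ᶠ[𝓝 x]
        fun y => Real.sin (@inner ℝ E _ ξ y + a) := by
      filter_upwards [hf1 x hx] with y hy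
      rw [hy, one_mul]
    rw [h1.fderiv_eq, ((hlin x).sin).fderiv]
    simp
  have hdc : ∀ x ∈ Ω, ∀ v, fderiv ℝ (fun y : E => f y * Real.cos (@inner ℝ E _ ξ y + a)) x v =
      -Real.sin (@inner ℝ E _ ξ x + a) * @inner ℝ E _ ξ v := by
    intro x hx v
    have h1 : (fun y : E => f y * Real.cos (@inner ℝ E _ ξ y + a)) =ᶠ[𝓝 x]
        fun y => Real.cos (@inner ℝ E _ ξ y + a) := by
      filter_upwards [hf1 x hx] with y hy
      rw [hy, one_mul]
    rw [h1.fderiv_eq, ((hlin x).cos).fderiv]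
    simp
  have e1 := hS.2.2.1 _ hsin hcs ξ
  have e2 := hS.2.2.2.1 _ hcos hcc
  have a1 : ∫ x in Ω, (u x - c) * (fderiv ℝ (fun y : E => f y * Real.sin (@inner ℝ E _ ξ y + a)) x ξ)
      = ‖ξ‖ ^ 2 * ∫ x in Ω, (u x - c) * Real.cos (@inner ℝ E _ ξ x + a) := by
    rw [← integral_const_mul]
    refine setIntegral_congr_fun hm fun x hx => ?_
    rw [hds x hx ξ, real_inner_self_eq_norm_sq]
    ring
  have a2 : ∫ x in Ω, @inner ℝ E _ (G x) ξ * (f x * Real.sin (@inner ℝ E _ ξ x + a)) =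
      ∫ x in Ω, Real.sin (@inner ℝ E _ ξ x + a) * @inner ℝ E _ ξ (G x) := by
    refine setIntegral_congr_fun hm fun x hx => ?_
    have := (hf1 x hx).self_of_nhds
    simp only [] at this
    rw [this, real_inner_comm]
    ring
  have a3 : ∫ x in Ω, fderiv ℝ (fun y : E => f y * Real.cos (@inner ℝ E _ ξ y + a)) x (G x) =
      - ∫ x in Ω, Real.sin (@inner ℝ E _ ξ x + a) * @inner ℝ E _ ξ (G x) := by
    rw [← integral_neg]
    refine setIntegral_congr_fun hm fun x hx => ?_
    rw [hdc x hx]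
    ring
  have a4 : ∫ x in Ω, u x * (f x * Real.cos (@inner ℝ E _ ξ x + a)) =
      ∫ x in Ω, u x * Real.cos (@inner ℝ E _ ξ x + a) := by
    refine setIntegral_congr_fun hm fun x hx => ?_
    have := (hf1 x hx).self_of_nhds
    simp only [] at this
    rw [this, one_mul]
  rw [a1, a2] at e1
  rw [a3, a4] at e2
  rw [e1, e2]

theorem cos_zero {Ω : Set E} (hb : Bornology.IsBounded Ω) (hm : MeasurableSet Ω)
    {lam c : ℝ} {u : E → ℝ} {G : E → E} (hS : Sol Ω lam c u G) (hl : 0 < lam) (hc : c ≠ 0) (ξ : E)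
    (hξ : ‖ξ‖ ^ 2 = lam) : ∫ x in Ω, Real.cos (@inner ℝ E _ ξ x) = 0 := by
  have h := ident hb hm hS ξ 0
  simp only [add_zero] at h
  obtain ⟨R, hR⟩ := hb.subset_closedBall (0 : E)
  have hfin : volume Ω < ⊤ := lt_of_le_of_lt (measure_mono hR) measure_closedBall_lt_top
  have hfm : IsFiniteMeasure (volume.restrict Ω) := ⟨by simpa using hfin⟩
  have hui : Integrable u (volume.restrict Ω) := hS.1.integrable (by norm_num)
  have hcosc : Continuous fun x : E => Real.cos (@inner ℝ E _ ξ x) :=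
    Real.continuous_cos.comp (continuous_const.inner continuous_id)
  have hci : Integrable (fun x : E => Real.cos (@inner ℝ E _ ξ x)) (volume.restrict Ω) :=
    Integrable.of_bound (C := 1) hcosc.aestronglyMeasurable
      (Filter.Eventually.of_forall fun x => by simpa using Real.abs_cos_le_one _)
  have huc : Integrable (fun x : E => u x * Real.cos (@inner ℝ E _ ξ x)) (volume.restrict Ω) :=
    hui.mul_bdd (c := 1) hcosc.aestronglyMeasurable
      (Filter.Eventually.of_forall fun x => by simpa using Real.abs_cos_le_one _)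
  have h2 : ∫ x in Ω, (u x - c) * Real.cos (@inner ℝ E _ ξ x) =
      (∫ x in Ω, u x * Real.cos (@inner ℝ E _ ξ x)) -
        c * ∫ x in Ω, Real.cos (@inner ℝ E _ ξ x) := by
    rw [← integral_const_mul, ← integral_sub huc (hci.const_mul c)]
    congr 1
    ext x
    ring
  rw [h2, hξ, mul_sub] at h
  have h3 : lam * (c * ∫ x in Ω, Real.cos (@inner ℝ E _ ξ x)) = 0 := by linarith
  rcases mul_eq_zero.1 h3 with h4 | h4
  · exact absurd h4 hl.ne'
  · exact (mul_eq_zero.1 h4).resolve_left hc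

end Pool.Agent.H329R3.SF
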