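import Pool.Agent.H329R3.SF.B

set_option autoImplicit false

open MeasureTheory Filter Topology Set
open scoped RealInnerProductSpace

namespace Pool.Agent.H329R3.SF

theorem hit {Ω : Set E} (hb : Bornology.IsBounded Ω) (hm : MeasurableSet Ω) (A : E ≃L[ℝ] E)
    {lam c : ℝ} {u : E → ℝ} {G : E → E} (hS : Sol (A '' Ω) lam c u G) (hl : 0 < lam) (hc : c ≠ 0)
    (v : E) (hv : v ≠ 0) :
    ∃ t : ℝ, (∫ x in Ω, Real.cos (t * @inner ℝ E _ v x) = 0) ∧
      1 / t ^ 2 = ‖ContinuousLinearMap.adjoint (A.symm : E →L[ℝ] E) v‖ ^ 2 / lam := by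
  set B := ContinuousLinearMap.adjoint (A.symm : E →L[ℝ] E) with hB
  have hBA : ∀ w x : E, @inner ℝ E _ (B w) (A x) = @inner ℝ E _ w x := by
    intro w x
    rw [hB, ContinuousLinearMap.adjoint_inner_left]
    simp
  have hBv : B v ≠ 0 := by
    intro h0
    apply hv
    have := hBA v v
    rw [h0, inner_zero_left] at this
    exact inner_self_eq_zero.1 this.symm
  have hn : 0 < ‖B v‖ := norm_pos_iff.2 hBv
  refine ⟨Real.sqrt lam / ‖B v‖, ?_, ?_⟩
  swap
  · rw [div_pow, Real.sq_sqrt hl.le]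
    field_simp
  · have hb' : Bornology.IsBounded (A '' Ω) :=
      (A : E →L[ℝ] E).lipschitz.isBounded_image hb
    have hm' : MeasurableSet (A '' Ω) := A.toHomeomorph.measurableEmbedding.measurableSet_image.2 hm
    have h1 := cos_zero hb' hm' hS hl hc ((Real.sqrt lam / ‖B v‖) • B v) (by
      rw [norm_smul, Real.norm_eq_abs, abs_of_nonneg (by positivity), div_mul_cancel₀ _ hn.ne',
        Real.sq_sqrt hl.le])
    rw [integral_image_eq_integral_abs_det_fderiv_smul volume hm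
      (f' := fun _ => (A : E →L[ℝ] E)) (fun x _ => (A.hasFDerivAt).hasFDerivWithinAt)
      A.injective.injOn] at h1
    have h2 : ∀ x : E, @inner ℝ E _ ((Real.sqrt lam / ‖B v‖) • B v) (A x) =
        Real.sqrt lam / ‖B v‖ * @inner ℝ E _ v x := by
      intro x
      rw [real_inner_smul_left, hBA]
    simp only [h2, smul_eq_mul, integral_const_mul] at h1
    refine (mul_eq_zero.1 h1).resolve_left ?_
    rw [abs_eq_zero]
    have := (LinearEquiv.isUnit_det' (A : E ≃L[ℝ] E).toLinearEquiv).ne_zero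
    exact this

/-- the first and second basis vectors -/
noncomputable def b0 : E := EuclideanSpace.single 0 1
noncomputable def b1 : E := EuclideanSpace.single 1 1

theorem decomp (v : E) : v = v 0 • b0 + v 1 • b1 := by
  ext i
  fin_cases i <;> simp [b0, b1]

theorem b0_ne : b0 ≠ 0 := by
  intro h
  have := congrFun (congrArg (fun w : E => (w : Fin 2 → ℝ)) h) 0
  simp [b0] at this

theorem b1_ne : b1 ≠ 0 := by
  intro h
  have := congrFun (congrArg (fun w : E => (w : Fin 2 → ℝ)) h) 1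
  simp [b1] at this

theorem b01_ne : b0 + b1 ≠ 0 := by
  intro h
  have := congrFun (congrArg (fun w : E => (w : Fin 2 → ℝ)) h) 0
  simp [b0, b1] at this

/-- the quadratic form is determined by three values -/
theorem quad (B : E →L[ℝ] E) (v : E) : ‖B v‖ ^ 2 =
    (v 0 ^ 2 - v 0 * v 1) * ‖B b0‖ ^ 2 + (v 1 ^ 2 - v 0 * v 1) * ‖B b1‖ ^ 2 +
      v 0 * v 1 * ‖B (b0 + b1)‖ ^ 2 := by
  have h1 : B v = v 0 • B b0 + v 1 • B b1 := by
    conv_lhs => rw [decomp v]
    simp
  rw [h1, map_add, norm_add_sq_real, norm_add_sq_real, norm_smul, norm_smul, real_inner_smul_left,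
    real_inner_smul_right, mul_pow, mul_pow, Real.norm_eq_abs, Real.norm_eq_abs, sq_abs, sq_abs]
  ring

theorem countable_forms (Ω : Set E) (hb : Bornology.IsBounded Ω) (hm : MeasurableSet Ω)
    (hpos : 0 < volume Ω)
    (hc : ∀ (A : E ≃L[ℝ] E) (lam c : ℝ) (u : E → ℝ) (G : E → E), 0 < lam →
      Sol (A '' Ω) lam c u G → c ≠ 0) :
    {N : E → ℝ | ∃ (A : E ≃L[ℝ] E) (lam c : ℝ) (u : E → ℝ) (G : E → E), 0 < lam ∧
      Sol (A '' Ω) lam c u G ∧
      N = fun v => ‖ContinuousLinearMap.adjoint (A.symm : E →L[ℝ] E) v‖ ^ 2 / lam}.Countable := by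
  set C : E → Set ℝ := fun v => (fun t : ℝ => 1 / t ^ 2) ''
    {t : ℝ | ∫ x in Ω, Real.cos (t * @inner ℝ E _ v x) = 0} with hC
  have hCc : ∀ v, (C v).Countable := fun v => (cos_zeros hb hm hpos v).image _
  refine Set.MapsTo.countable_of_injOn (f := fun N : E → ℝ => (N b0, N b1, N (b0 + b1)))
    (t := C b0 ×ˢ (C b1 ×ˢ C (b0 + b1))) ?_ ?_ ((hCc _).prod ((hCc _).prod (hCc _)))
  · rintro N ⟨A, lam, c, u, G, hl, hS, rfl⟩
    have hcc := hc A lam c u G hl hS
    obtain ⟨t0, h0, h0'⟩ := hit hb hm A hS hl hcc b0 b0_ne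
    obtain ⟨t1, h1, h1'⟩ := hit hb hm A hS hl hcc b1 b1_ne
    obtain ⟨t2, h2, h2'⟩ := hit hb hm A hS hl hcc (b0 + b1) b01_ne
    exact ⟨⟨t0, h0, h0'⟩, ⟨t1, h1, h1'⟩, ⟨t2, h2, h2'⟩⟩
  · rintro N ⟨A, lam, c, u, G, hl, hS, rfl⟩ N' ⟨A', lam', c', u', G', hl', hS', rfl⟩ h
    simp only [Prod.mk.injEq] at h
    obtain ⟨e0, e1, e2⟩ := h
    funext v
    rw [quad _ v, quad (ContinuousLinearMap.adjoint (A'.symm : E →L[ℝ] E)) v, add_div, add_div,
      add_div, add_div, mul_div_assoc, mul_div_assoc, mul_div_assoc, mul_div_assoc, mul_div_assoc,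
      mul_div_assoc, e0, e1, e2]

end Pool.Agent.H329R3.SF

namespace Pool.Agent.H329R3.SF

theorem adj_A (A : E ≃L[ℝ] E) (w x : E) :
    @inner ℝ E _ (ContinuousLinearMap.adjoint (A.symm : E →L[ℝ] E) w) (A x) = @inner ℝ E _ w x := by
  rw [ContinuousLinearMap.adjoint_inner_left]
  simp

/-- proportional forms: the two linear maps differ by a similarity -/
theorem similar (A A' : E ≃L[ℝ] E) {lam lam' : ℝ} (hl : 0 < lam) (hl' : 0 < lam')
    (h : ∀ v : E, ‖ContinuousLinearMap.adjoint (A.symm : E →L[ℝ] E) v‖ ^ 2 / lam =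
      ‖ContinuousLinearMap.adjoint (A'.symm : E →L[ℝ] E) v‖ ^ 2 / lam') :
    ∃ (r : ℝ) (O : E ≃ₗᵢ[ℝ] E), 0 < r ∧ ∀ x, A x = r • O (A' x) := by
  -- the ratio
  set q : ℝ := Real.sqrt (lam' / lam) with hq
  have hq0 : 0 < q := Real.sqrt_pos.2 (div_pos hl' hl)
  have hq2 : q ^ 2 = lam' / lam := Real.sq_sqrt (div_pos hl' hl).le
  -- `T = A ∘ A'⁻¹` satisfies `‖T w‖ = q⁻¹ ‖w‖` after dualising
  set T : E →L[ℝ] E := (A : E →L[ℝ] E).comp (A'.symm : E →L[ℝ] E) with hT
  set T' : E →L[ℝ] E := (A' : E →L[ℝ] E).comp (A.symm : E →L[ℝ] E) with hT'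
  have hTT' : ∀ x, T (T' x) = x := fun x => by simp [hT, hT']
  have hT'T : ∀ x, T' (T x) = x := fun x => by simp [hT, hT']
  -- adjoint of T' expressed by the adjoints
  have hn : ∀ w : E, ‖ContinuousLinearMap.adjoint T' w‖ * q = ‖w‖ := by
    intro w
    have e1 := h (ContinuousLinearMap.adjoint (A' : E →L[ℝ] E) w)
    have e2 : ContinuousLinearMap.adjoint (A'.symm : E →L[ℝ] E)
        (ContinuousLinearMap.adjoint (A' : E →L[ℝ] E) w) = w := by
      refine ext_inner_right ℝ fun x => ?_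
      rw [ContinuousLinearMap.adjoint_inner_left, ContinuousLinearMap.adjoint_inner_left]
      simp
    have e3 : ContinuousLinearMap.adjoint (A.symm : E →L[ℝ] E)
        (ContinuousLinearMap.adjoint (A' : E →L[ℝ] E) w) = ContinuousLinearMap.adjoint T' w := by
      refine ext_inner_right ℝ fun x => ?_
      rw [ContinuousLinearMap.adjoint_inner_left, ContinuousLinearMap.adjoint_inner_left,
        ContinuousLinearMap.adjoint_inner_left]
      simp [hT']
    rw [e2, e3] at e1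
    have e4 : (‖ContinuousLinearMap.adjoint T' w‖ * q) ^ 2 = ‖w‖ ^ 2 := by
      rw [mul_pow, hq2]
      field_simp at e1 ⊢
      linarith
    exact (sq_eq_sq₀ (by positivity) (norm_nonneg _)).1 e4
  -- hence T'ᵀ scaled is a linear isometry, so T' scaled is one
  have hcomp : ∀ w : E, q ^ 2 • T' (ContinuousLinearMap.adjoint T' w) = w := by
    have hin : ∀ w z : E, q ^ 2 * @inner ℝ E _ (ContinuousLinearMap.adjoint T' w)
        (ContinuousLinearMap.adjoint T' z) = @inner ℝ E _ w z := by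
      intro w z
      have p1 := hn (w + z)
      have p2 := hn (w - z)
      rw [map_add] at p1
      rw [map_sub] at p2
      have q1 : ‖ContinuousLinearMap.adjoint T' w + ContinuousLinearMap.adjoint T' z‖ ^ 2 * q ^ 2 =
          ‖w + z‖ ^ 2 := by rw [← mul_pow, p1]
      have q2 : ‖ContinuousLinearMap.adjoint T' w - ContinuousLinearMap.adjoint T' z‖ ^ 2 * q ^ 2 =
          ‖w - z‖ ^ 2 := by rw [← mul_pow, p2]
      rw [norm_add_sq_real, norm_add_sq_real] at q1
      rw [norm_sub_sq_real, norm_sub_sq_real] at q2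
      nlinarith
    intro w
    refine ext_inner_right ℝ fun z => ?_
    rw [real_inner_smul_left, ← hin w z, ContinuousLinearMap.adjoint_inner_right]
  have hTadj : ∀ x : E, T x = q ^ 2 • ContinuousLinearMap.adjoint T' x := by
    intro x
    have := congrArg T (hcomp x)
    rw [map_smul, hTT'] at this
    exact this.symm
  have hTn : ∀ x : E, ‖T x‖ = q * ‖x‖ := by
    intro x
    rw [hTadj x, norm_smul, Real.norm_eq_abs, abs_of_nonneg (by positivity), ← hn x]
    ring
  let L : E →ₗᵢ[ℝ] E := ⟨(q⁻¹ • T : E →L[ℝ] E).toLinearMap, fun x => by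
    show ‖(q⁻¹ • T) x‖ = ‖x‖
    rw [ContinuousLinearMap.smul_apply, norm_smul, hTn, Real.norm_eq_abs,
      abs_of_nonneg (by positivity)]
    field_simp⟩
  let O : E ≃ₗᵢ[ℝ] E := L.toLinearIsometryEquiv rfl
  refine ⟨q, O, hq0, fun x => ?_⟩
  have : O (A' x) = q⁻¹ • T (A' x) := rfl
  rw [this, smul_smul, mul_inv_cancel₀ hq0.ne', one_smul]
  simp [hT]

/-- dilation of the first coordinate -/
noncomputable def stretch (s : ℝ) (hs : s ≠ 0) : E ≃L[ℝ] E :=
  LinearEquiv.toContinuousLinearEquiv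
  { toFun := fun x => !₂[s * x 0, x 1]
    invFun := fun x => !₂[s⁻¹ * x 0, x 1]
    map_add' := fun x y => by
      ext i; fin_cases i <;> simp [mul_add]
    map_smul' := fun c x => by
      ext i; fin_cases i <;> simp [mul_left_comm]
    left_inv := fun x => by
      ext i; fin_cases i <;> simp [hs]
    right_inv := fun x => by
      ext i; fin_cases i <;> simp [hs] }

theorem adj_stretch0 {s : ℝ} (hs : s ≠ 0) :
    ‖ContinuousLinearMap.adjoint ((stretch s hs).symm : E →L[ℝ] E) b0‖ ^ 2 = (1 / s) ^ 2 := by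
  have : ContinuousLinearMap.adjoint ((stretch s hs).symm : E →L[ℝ] E) b0 = (1 / s) • b0 := by
    refine ext_inner_right ℝ fun x => ?_
    rw [ContinuousLinearMap.adjoint_inner_left, real_inner_smul_left]
    have : (stretch s hs).symm x = !₂[s⁻¹ * x 0, x 1] := rfl
    rw [ContinuousLinearEquiv.coe_coe, this]
    simp [b0, PiLp.inner_apply]
  rw [this, norm_smul, mul_pow]
  simp [b0]

theorem adj_stretch1 {s : ℝ} (hs : s ≠ 0) :
    ‖ContinuousLinearMap.adjoint ((stretch s hs).symm : E →L[ℝ] E) b1‖ ^ 2 = 1 ^ 2 := by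
  have : ContinuousLinearMap.adjoint ((stretch s hs).symm : E →L[ℝ] E) b1 = b1 := by
    refine ext_inner_right ℝ fun x => ?_
    rw [ContinuousLinearMap.adjoint_inner_left]
    have : (stretch s hs).symm x = !₂[s⁻¹ * x 0, x 1] := rfl
    rw [ContinuousLinearEquiv.coe_coe, this]
    simp [b1, PiLp.inner_apply]
  rw [this]
  simp [b1]

end Pool.Agent.H329R3.SF
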