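import Pool.Agent.H329R3.SF.B

set_option autoImplicit false

open MeasureTheory Filter Topology Set
open scoped RealInnerProductSpace

namespace Pool.Agent.H329R3.SF

/-- an integrable function on a bounded set all of whose shifted cosine transforms vanish is zero -/
theorem inj {Ω : Set E} {u : E → ℝ} (hui : Integrable u (volume.restrict Ω))
    (h : ∀ (ξ : E) (a : ℝ), ∫ x in Ω, u x * Real.cos (@inner ℝ E _ ξ x + a) = 0) :
    u =ᵐ[volume.restrict Ω] 0 := by
  set μ : Measure E := volume.restrict Ω with hμ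
  have hup : Integrable (fun x => max (u x) 0) μ := hui.pos_part
  have hun : Integrable (fun x => max (-u x) 0) μ := hui.neg_part
  set μp := μ.withDensity (fun x => ENNReal.ofReal (u x)) with hμp
  set μn := μ.withDensity (fun x => ENNReal.ofReal (-u x)) with hμn
  have hfp : IsFiniteMeasure μp := isFiniteMeasure_withDensity_ofReal hui.2
  have hfn : IsFiniteMeasure μn := isFiniteMeasure_withDensity_ofReal hui.neg.2
  have hmp : AEMeasurable (fun x => ENNReal.ofReal (u x)) μ := hui.1.aemeasurable.ennreal_ofReal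
  have hmn : AEMeasurable (fun x => ENNReal.ofReal (-u x)) μ :=
    hui.neg.1.aemeasurable.ennreal_ofReal
  have hexpc : ∀ ξ : E, Continuous fun x : E => Complex.exp ((@inner ℝ E _ x ξ : ℝ) * Complex.I) :=
    fun ξ => by fun_prop
  have hbd : ∀ (ξ x : E), ‖Complex.exp ((@inner ℝ E _ x ξ : ℝ) * Complex.I)‖ ≤ 1 := fun ξ x => by
    rw [Complex.norm_exp_ofReal_mul_I]
  have hzero : ∀ ξ : E, ∫ x, ((u x : ℝ) : ℂ) * Complex.exp ((@inner ℝ E _ x ξ : ℝ) * Complex.I) ∂μ
      = 0 := by
    intro ξ
    have hi : Integrable (fun x => ((u x : ℝ) : ℂ) *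
        Complex.exp ((@inner ℝ E _ x ξ : ℝ) * Complex.I)) μ :=
      hui.ofReal.mul_bdd (c := 1) (hexpc ξ).aestronglyMeasurable
        (Filter.Eventually.of_forall (hbd ξ))
    apply Complex.ext
    · rw [← RCLike.re_eq_complex_re, ← integral_re hi]
      have h1 := h ξ 0
      simp only [add_zero] at h1
      rw [map_zero, ← h1]
      congr 1
      ext x
      show (((u x : ℝ) : ℂ) * Complex.exp ((@inner ℝ E _ x ξ : ℝ) * Complex.I)).re = _
      rw [Complex.re_ofReal_mul, Complex.exp_ofReal_mul_I_re, real_inner_comm]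
    · rw [← RCLike.im_eq_complex_im, ← integral_im hi]
      have h1 := h ξ (-(Real.pi / 2))
      rw [map_zero, ← h1]
      congr 1
      ext x
      rw [← sub_eq_add_neg, Real.cos_sub_pi_div_two]
      show (((u x : ℝ) : ℂ) * Complex.exp ((@inner ℝ E _ x ξ : ℝ) * Complex.I)).im = _
      rw [Complex.im_ofReal_mul, Complex.exp_ofReal_mul_I_im, real_inner_comm]
  have hchar : charFun μp = charFun μn := by
    ext ξ
    rw [charFun_apply, charFun_apply]
    rw [hμp, hμn, integral_withDensity_eq_integral_toReal_smul₀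
      hmp (Filter.Eventually.of_forall fun x => ENNReal.ofReal_lt_top),
      integral_withDensity_eq_integral_toReal_smul₀
      hmn (Filter.Eventually.of_forall fun x => ENNReal.ofReal_lt_top)]
    have hi1 : Integrable (fun x => (ENNReal.ofReal (u x)).toReal •
        Complex.exp ((@inner ℝ E _ x ξ : ℝ) * Complex.I)) μ := by
      have : (fun x => (ENNReal.ofReal (u x)).toReal •
        Complex.exp ((@inner ℝ E _ x ξ : ℝ) * Complex.I)) = fun x => ((max (u x) 0 : ℝ) : ℂ) *
          Complex.exp ((@inner ℝ E _ x ξ : ℝ) * Complex.I) := by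
        ext x
        rw [ENNReal.toReal_ofReal', Complex.real_smul]
      rw [this]
      exact hup.ofReal.mul_bdd (c := 1) (hexpc ξ).aestronglyMeasurable
        (Filter.Eventually.of_forall (hbd ξ))
    have hi2 : Integrable (fun x => (ENNReal.ofReal (-u x)).toReal •
        Complex.exp ((@inner ℝ E _ x ξ : ℝ) * Complex.I)) μ := by
      have : (fun x => (ENNReal.ofReal (-u x)).toReal •
        Complex.exp ((@inner ℝ E _ x ξ : ℝ) * Complex.I)) = fun x => ((max (-u x) 0 : ℝ) : ℂ) *
          Complex.exp ((@inner ℝ E _ x ξ : ℝ) * Complex.I) := by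
        ext x
        rw [ENNReal.toReal_ofReal', Complex.real_smul]
      rw [this]
      exact hun.ofReal.mul_bdd (c := 1) (hexpc ξ).aestronglyMeasurable
        (Filter.Eventually.of_forall (hbd ξ))
    rw [← sub_eq_zero, ← integral_sub hi1 hi2, ← hzero ξ]
    congr 1
    ext x
    rw [ENNReal.toReal_ofReal', ENNReal.toReal_ofReal', Complex.real_smul, Complex.real_smul,
      ← sub_mul, ← Complex.ofReal_sub]
    congr 2
    rcases le_total 0 (u x) with h1 | h1
    · rw [max_eq_left h1, max_eq_right (by linarith)]; ring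
    · rw [max_eq_right h1, max_eq_left (by linarith)]; ring
  have heq : μp = μn := Measure.ext_of_charFun hchar
  have h2 := (withDensity_eq_iff hmp hmn (by
      have := hfp.measure_univ_lt_top.ne
      rw [hμp, withDensity_apply _ MeasurableSet.univ, Measure.restrict_univ] at this
      exact this)).1 heq
  filter_upwards [h2] with x hx
  rcases lt_trichotomy (u x) 0 with h1 | h1 | h1
  · rw [ENNReal.ofReal_of_nonpos h1.le] at hx
    have := ENNReal.ofReal_pos.2 (neg_pos.2 h1)
    rw [← hx] at this
    exact absurd this (lt_irrefl _)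
  · exact h1
  · rw [ENNReal.ofReal_of_nonpos (neg_neg_of_pos h1).le] at hx
    have := ENNReal.ofReal_pos.2 h1
    rw [hx] at this
    exact absurd this (lt_irrefl _)

theorem c_ne {Ω : Set E} (hb : Bornology.IsBounded Ω) (hm : MeasurableSet Ω)
    {lam c : ℝ} {u : E → ℝ} {G : E → E} (hS : Sol Ω lam c u G) (hl : 0 < lam) : c ≠ 0 := by
  rintro rfl
  apply hS.2.2.2.2
  obtain ⟨R, hR⟩ := hb.subset_closedBall (0 : E)
  have hfin : volume Ω < ⊤ := lt_of_le_of_lt (measure_mono hR) measure_closedBall_lt_top
  have hfm : IsFiniteMeasure (volume.restrict Ω) := ⟨by simpa using hfin⟩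
  have hui : Integrable u (volume.restrict Ω) := hS.1.integrable (by norm_num)
  refine inj hui fun ξ a => ?_
  have hcosc : ∀ (ξ : E), Continuous fun x : E => Real.cos (@inner ℝ E _ ξ x + a) :=
    fun ξ => Real.continuous_cos.comp ((continuous_const.inner continuous_id).add continuous_const)
  -- off the circle
  have hoff : ∀ η : E, ‖η‖ ^ 2 ≠ lam → ∫ x in Ω, u x * Real.cos (@inner ℝ E _ η x + a) = 0 := by
    intro η hη
    have h := ident hb hm hS η a
    simp only [sub_zero] at h
    have h2 : (‖η‖ ^ 2 - lam) * ∫ x in Ω, u x * Real.cos (@inner ℝ E _ η x + a) = 0 := by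
      linarith
    exact (mul_eq_zero.1 h2).resolve_left (sub_ne_zero.2 hη)
  by_cases hξ : ‖ξ‖ ^ 2 = lam
  swap
  · exact hoff ξ hξ
  -- limit along the ray
  have hcont : Continuous fun t : ℝ => ∫ x in Ω, u x * Real.cos (@inner ℝ E _ (t • ξ) x + a) := by
    refine continuous_of_dominated (bound := fun x => |u x|) ?_ ?_ hui.abs ?_
    · intro t
      exact hui.1.mul (hcosc _).aestronglyMeasurable
    · intro t
      filter_upwards with x
      rw [norm_mul, Real.norm_eq_abs, Real.norm_eq_abs]
      exact mul_le_of_le_one_right (abs_nonneg _) (Real.abs_cos_le_one _)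
    · filter_upwards with x
      fun_prop
  have hz : ∀ᶠ t in 𝓝[≠] (1 : ℝ), ∫ x in Ω, u x * Real.cos (@inner ℝ E _ (t • ξ) x + a) = 0 := by
    have h1 : ∀ᶠ t in 𝓝[≠] (1 : ℝ), 0 < t :=
      mem_nhdsWithin_of_mem_nhds (Ioi_mem_nhds one_pos)
    filter_upwards [h1, self_mem_nhdsWithin] with t ht ht1
    apply hoff
    rw [norm_smul, mul_pow, hξ, Real.norm_eq_abs, sq_abs]
    intro h2
    have h3 : t ^ 2 = 1 := by
      have : (t ^ 2 - 1) * lam = 0 := by linarith
      rcases mul_eq_zero.1 this with h4 | h4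
      · linarith
      · exact absurd h4 hl.ne'
    apply ht1
    simp only [Set.mem_singleton_iff]
    nlinarith
  have h1 := tendsto_nhds_unique (hcont.continuousAt.tendsto.mono_left
    (nhdsWithin_le_nhds (s := {1}ᶜ) (a := (1 : ℝ)))) (tendsto_const_nhds.congr' (hz.mono fun t ht => ht.symm))
  simpa using h1

end Pool.Agent.H329R3.SF
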