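import Pool.Agent.H329R3.SF.C
import Pool.Agent.H329R3.SF.D

set_option autoImplicit false

open MeasureTheory Filter Topology Set

namespace Pool.Agent.H329R3.SF

section generic

variable {V : Type} [NormedAddCommGroup V] [InnerProductSpace ℝ V] [MeasureSpace V]

/-- Trace condition: `G` is the gradient of `u` on `Ω` and `u = c` on the boundary. -/
def TraceG (Ω : Set V) (c : ℝ) (u : V → ℝ) (G : V → V) : Prop :=
  ∀ φ : V → ℝ, ContDiff ℝ 1 φ → HasCompactSupport φ → ∀ v : V,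
    ∫ x in Ω, (u x - c) * (fderiv ℝ φ x v) = - ∫ x in Ω, inner ℝ (G x) v * φ x

/-- Weak form of `-Δu = lam u` in `Ω`, `∂u/∂n = 0` on the boundary. -/
def NeumannG (Ω : Set V) (lam : ℝ) (u : V → ℝ) (G : V → V) : Prop :=
  ∀ φ : V → ℝ, ContDiff ℝ 1 φ → HasCompactSupport φ →
    ∫ x in Ω, fderiv ℝ φ x (G x) = lam * ∫ x in Ω, u x * φ x

/-- `u` and `G` are square integrable on `Ω` and `u` does not vanish almost everywhere. -/
def NontrivG (Ω : Set V) (u : V → ℝ) (G : V → V) : Prop :=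
  MemLp u 2 (volume.restrict Ω) ∧ MemLp G 2 (volume.restrict Ω) ∧ ¬ (u =ᵐ[volume.restrict Ω] 0)

/-- The overdetermined problem has a nontrivial solution on `Ω` for some `lam > 0`. -/
def Schiffer (Ω : Set V) : Prop :=
  ∃ (lam c : ℝ) (u : V → ℝ) (G : V → V), 0 < lam ∧ NontrivG Ω u G ∧ TraceG Ω c u G ∧
    NeumannG Ω lam u G

/-- `A = r O A'` with `r > 0` and `O` an isometry. -/
def Similar (A A' : V ≃L[ℝ] V) : Prop := ∃ r : ℝ, 0 < r ∧ ∀ x, ‖A x‖ = r * ‖A' x‖

/-- Only countably many linear images of `Ω`, up to similarity, carry a solution. -/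
def FewImages (Ω : Set V) : Prop :=
  ∃ S : Set (V ≃L[ℝ] V), S.Countable ∧ ∀ A : V ≃L[ℝ] V, Schiffer (A '' Ω) →
    ∃ A' ∈ S, Similar A A'

end generic

/-- All but countably many dilations of the first coordinate carry no solution. -/
def FewDil (Ω : Set (EuclideanSpace ℝ (Fin 2))) : Prop :=
  {s : ℝ | 0 < s ∧ Schiffer (dil s '' Ω)}.Countable

theorem to_sol {Ω : Set E} (h : Schiffer Ω) : ∃ lam, Solvable Ω lam := by
  obtain ⟨lam, c, u, G, hl, h1, h2, h3⟩ := h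
  exact ⟨lam, hl, c, u, G, h1.1, h1.2.1, h2, h3, h1.2.2⟩

theorem all (Ω : Set E) (hb : Bornology.IsBounded Ω) (ho : IsOpen Ω) (hne : Ω.Nonempty) :
    FewImages Ω ∧ FewDil Ω := by
  have hm : MeasurableSet Ω := ho.measurableSet
  have hpos : 0 < volume Ω := ho.measure_pos volume hne
  have hc : ∀ (A : E ≃L[ℝ] E) (lam c : ℝ) (u : E → ℝ) (G : E → E), 0 < lam →
      Sol (A '' Ω) lam c u G → c ≠ 0 := by
    intro A lam c u G hl hS
    exact c_ne ((A : E →L[ℝ] E).lipschitz.isBounded_image hb)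
      (A.toHomeomorph.measurableEmbedding.measurableSet_image.2 hm) hS hl
  have h0 := countable_forms Ω hb hm hpos hc
  have h1 : {N : E → ℝ | ∃ (A : E ≃L[ℝ] E) (lam : ℝ), Solvable (A '' Ω) lam ∧
      N = form A lam}.Countable := by
    refine h0.mono ?_
    rintro N ⟨A, lam, ⟨hl, c, u, G, hS⟩, rfl⟩
    exact ⟨A, lam, c, u, G, hl, hS, rfl⟩
  refine ⟨?_, ?_⟩
  · classical
    set S := {N : E → ℝ | ∃ (A : E ≃L[ℝ] E) (lam : ℝ), Solvable (A '' Ω) lam ∧
      N = form A lam} with hS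
    let F : (E → ℝ) → (E ≃L[ℝ] E) := fun N => if h : N ∈ S then h.choose else
      ContinuousLinearEquiv.refl ℝ E
    refine ⟨F '' S, h1.image F, ?_⟩
    intro A hSch
    obtain ⟨lam, hSol⟩ := to_sol hSch
    have hNS : form A lam ∈ S := ⟨A, lam, hSol, rfl⟩
    refine ⟨F (form A lam), ⟨_, hNS, rfl⟩, ?_⟩
    have hF : F (form A lam) = hNS.choose := by simp only [F]; rw [dif_pos hNS]
    obtain ⟨lam', hSol', hN'⟩ := hNS.choose_spec
    rw [← hF] at hSol' hN'
    obtain ⟨r, O, hr, hO⟩ := similar A _ hSol.1 hSol'.1 (fun v => congrFun hN' v)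
    refine ⟨r, hr, fun x => ?_⟩
    rw [hO x, norm_smul, O.norm_map, Real.norm_eq_abs, abs_of_pos hr]
  · have h2 : {s : ℝ | 0 < s ∧ Schiffer (dil s '' Ω)} ⊆
        (fun N : E → ℝ => Real.sqrt (N b1 / N b0)) ''
        {N : E → ℝ | ∃ (A : E ≃L[ℝ] E) (lam : ℝ), Solvable (A '' Ω) lam ∧ N = form A lam} := by
      rintro s ⟨hs, hSch⟩
      obtain ⟨lam, hS⟩ := to_sol hSch
      refine ⟨_, ⟨stretch s hs.ne', lam, hS, rfl⟩, ?_⟩
      have hl := hS.1
      show Real.sqrt ((‖ContinuousLinearMap.adjoint ((stretch s hs.ne').symm : E →L[ℝ] E) b1‖ ^ 2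
        / lam) / (‖ContinuousLinearMap.adjoint ((stretch s hs.ne').symm : E →L[ℝ] E) b0‖ ^ 2
        / lam)) = s
      rw [adj_stretch0 hs.ne', adj_stretch1 hs.ne']
      have : 1 / lam / ((1 / s) ^ 2 / lam) = s ^ 2 := by field_simp
      rw [show (1:ℝ) ^ 2 / lam = 1 / lam by norm_num, this, Real.sqrt_sq hs.le]
    exact (h1.image _).mono h2

end Pool.Agent.H329R3.SF
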